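import Mathlib
import Pool.Agent.W_MP_955314_co.Wreath

/-!
Soluble patterns: for every finite set `α` there is a soluble permutation group on a finite set of
positions, each position carrying either a relabelling of `α` or a constant subset of `α`, such that
the rows of any two subsets of `α` of the same size are equivalent.
-/

set_option autoImplicit false

namespace Pool.Agent.W40_MP_955314_co

open Equiv

/-- The number of elements of a subset. -/
def lev {α : Type} [Fintype α] (J : α → Bool) : ℕ := ∑ a, (J a).toNat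

theorem lev_comp {α : Type} [Fintype α] (J : α → Bool) (g : Perm α) : lev (J ∘ g) = lev J :=
  Equiv.sum_comp g (fun a => (J a).toNat)

theorem lev_le {α : Type} [Fintype α] (J : α → Bool) : lev J ≤ Fintype.card α := by
  unfold lev
  calc ∑ a, (J a).toNat ≤ ∑ _a : α, 1 := Finset.sum_le_sum fun a _ => Bool.toNat_le (J a)
    _ = Fintype.card α := by simp

/-- Labels of positions: a relabelling or a constant. -/
abbrev Lab (α : Type) := Perm α ⊕ (α → Bool)

/-- The entry of the row of `J` at a position with a given label. -/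
def act {α : Type} (u : Lab α) (J : α → Bool) : α → Bool :=
  match u with
  | Sum.inl g => J ∘ g
  | Sum.inr c => c

@[simp] theorem act_inl {α : Type} (g : Perm α) (J : α → Bool) : act (Sum.inl g) J = J ∘ g := rfl
@[simp] theorem act_inr {α : Type} (c : α → Bool) (J : α → Bool) : act (Sum.inr c) J = c := rfl

/-- Composition of labels. -/
def compLab {α : Type} (x' x : Lab α) : Lab α :=
  match x' with
  | Sum.inl h => match x with
    | Sum.inl g => Sum.inl (h * g)
    | Sum.inr c => Sum.inr c
  | Sum.inr d => Sum.inr (act x d)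

theorem act_compLab {α : Type} (x' x : Lab α) (J : α → Bool) :
    act (compLab x' x) J = act x (act x' J) := by
  rcases x' with h | d <;> rcases x with g | c <;> rfl

section wreath

variable {P P' : Type}

/-- The hom from the abstract wreath product to permutations of `P' × P`. -/
def wrHomP (T : Subgroup (Perm P)) (T' : Subgroup (Perm P')) :
    ((P' → T) ⋊[mulAutArrow] T') →* Perm (P' × P) where
  toFun a :=
    { toFun := fun q => ((a.right : Perm P') q.1, (a.left ((a.right : Perm P') q.1) : Perm P) q.2)
      invFun := fun q => ((a.right : Perm P')⁻¹ q.1, (a.left q.1 : Perm P)⁻¹ q.2)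
      left_inv := fun q => by
        ext
        · simp
        · simp
      right_inv := fun q => by
        ext
        · simp
        · simp }
  map_one' := by
    ext q
    · rfl
    · rfl
  map_mul' a b := by
    apply Equiv.ext
    rintro ⟨q1, q2⟩
    simp only [SemidirectProduct.mul_left, SemidirectProduct.mul_right, Pi.mul_apply,
      Subgroup.coe_mul, Perm.mul_apply, Equiv.coe_fn_mk]
    refine Prod.ext rfl ?_
    change ((a.left _ : Perm P) ((b.left ((a.right)⁻¹ • (_ : P')) : Perm P) q2)) = _
    have : ((a.right)⁻¹ • ((a.right : Perm P') ((b.right : Perm P') q1)) : P') =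
        (b.right : Perm P') q1 := by
      change ((a.right : Perm P')⁻¹) ((a.right : Perm P') ((b.right : Perm P') q1)) = _
      simp
    rw [this]

/-- The wreath product as a group of permutations of `P' × P`. -/
def wreathP (T : Subgroup (Perm P)) (T' : Subgroup (Perm P')) : Subgroup (Perm (P' × P)) :=
  (wrHomP T T').range

theorem isSolvable_wreathP (T : Subgroup (Perm P)) (T' : Subgroup (Perm P'))
    (hT : Group.IsSolvable T) (hT' : Group.IsSolvable T') : Group.IsSolvable (wreathP T T') := by
  have : Group.IsSolvable (P' → T) := W_MP_955314_co.isSolvable_pi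
  have : Group.IsSolvable ((P' → T) ⋊[mulAutArrow] T') :=
    Group.isSolvable_of_ker_le_range (SemidirectProduct.inl : (P' → T) →* (P' → T) ⋊[mulAutArrow] T')
      SemidirectProduct.rightHom (by rw [SemidirectProduct.range_inl_eq_ker_rightHom])
  exact Group.isSolvable_of_surjective (wrHomP T T').rangeRestrict_surjective

theorem exists_wreathP {T : Subgroup (Perm P)} {T' : Subgroup (Perm P')} {t' : Perm P'}
    (ht' : t' ∈ T') {s : P' → Perm P} (hs : ∀ p', s p' ∈ T) :
    ∃ σ ∈ wreathP T T', ∀ p' p, σ (p', p) = (t' p', s p' p) := by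
  refine ⟨_, ⟨⟨fun j => ⟨s (t'⁻¹ j), hs _⟩, ⟨t', ht'⟩⟩, rfl⟩, fun p' p => ?_⟩
  simp [wrHomP]

end wreath

/-- A soluble pattern. -/
structure Pat (α : Type) where
  P : Type
  fP : Fintype P
  T : Subgroup (Perm P)
  hT : Group.IsSolvable T
  u : P → Lab α
  nt : ∃ p g, u p = Sum.inl g

namespace Pat

variable {α β : Type}

/-- Equivalence of rows. -/
def Eqv (D : Pat α) (J J' : α → Bool) : Prop :=
  ∃ t ∈ D.T, ∀ p, act (D.u (t p)) J = act (D.u p) J'

theorem Eqv.refl (D : Pat α) (J : α → Bool) : D.Eqv J J := ⟨1, D.T.one_mem, fun _ => rfl⟩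

/-- Composition of patterns. -/
def comp (D' D : Pat α) : Pat α where
  P := D'.P × D.P
  fP := by
    haveI := D'.fP
    haveI := D.fP
    infer_instance
  T := wreathP D.T D'.T
  hT := isSolvable_wreathP _ _ D.hT D'.hT
  u := fun q => compLab (D'.u q.1) (D.u q.2)
  nt := by
    obtain ⟨p', h, hp'⟩ := D'.nt
    obtain ⟨p, g, hp⟩ := D.nt
    exact ⟨(p', p), h * g, by simp only [hp, hp']; rfl⟩

theorem comp_eqv {D' D : Pat α} {J J' : α → Bool}
    (h : ∃ t' ∈ D'.T, ∀ p', D.Eqv (act (D'.u (t' p')) J) (act (D'.u p') J')) :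
    (D'.comp D).Eqv J J' := by
  obtain ⟨t', ht', h⟩ := h
  choose s hs hsp using h
  obtain ⟨σ, hσ, hσe⟩ := exists_wreathP ht' hs
  refine ⟨σ, hσ, ?_⟩
  rintro ⟨p', p⟩
  change act (compLab (D'.u (σ (p', p)).1) (D.u (σ (p', p)).2)) J =
    act (compLab (D'.u p') (D.u p)) J'
  rw [hσe, act_compLab, act_compLab]
  exact hsp p' p

/-- All rows of level `l` are equivalent. -/
def Unif [Fintype α] (D : Pat α) (l : ℕ) : Prop :=
  ∀ J J' : α → Bool, lev J = l → lev J' = l → D.Eqv J J'

theorem unif_inner [Fintype α] {D' D : Pat α} {l : ℕ} (h : D.Unif l) : (D'.comp D).Unif l := by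
  intro J J' hJ hJ'
  refine comp_eqv ⟨1, D'.T.one_mem, fun p' => ?_⟩
  rw [Perm.one_apply]
  rcases D'.u p' with g | c
  · exact h _ _ (by rw [act_inl, lev_comp, hJ]) (by rw [act_inl, lev_comp, hJ'])
  · exact Eqv.refl _ _

theorem unif_outer [Fintype α] {D' D : Pat α} {l : ℕ} (h : D'.Unif l) : (D'.comp D).Unif l := by
  intro J J' hJ hJ'
  obtain ⟨t', ht', h⟩ := h J J' hJ hJ'
  refine comp_eqv ⟨t', ht', fun p' => ?_⟩
  rw [h p']
  exact Eqv.refl _ _

/-- The trivial pattern. -/
def triv (α : Type) : Pat α where
  P := Unit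
  fP := inferInstance
  T := ⊥
  hT := inferInstance
  u := fun _ => Sum.inl 1
  nt := ⟨(), 1, rfl⟩

theorem exists_all [Fintype α] (h : ∀ l, ∃ D : Pat α, D.Unif l) : ∃ D : Pat α, ∀ l, D.Unif l := by
  have key : ∀ m : ℕ, ∃ D : Pat α, ∀ l < m, D.Unif l := by
    intro m
    induction m with
    | zero => exact ⟨triv α, fun l hl => absurd hl (by omega)⟩
    | succ m ih =>
      obtain ⟨D, hD⟩ := ih
      obtain ⟨D', hD'⟩ := h m
      refine ⟨D'.comp D, fun l hl => ?_⟩
      rcases Nat.lt_succ_iff_lt_or_eq.1 hl with hl | rfl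
      · exact unif_inner (hD l hl)
      · exact unif_outer hD'
  obtain ⟨D, hD⟩ := key (Fintype.card α + 1)
  refine ⟨D, fun l => ?_⟩
  by_cases hl : l < Fintype.card α + 1
  · exact hD l hl
  · intro J J' hJ hJ'
    have := lev_le J
    omega

end Pat

section option

variable {β : Type}

/-- A subset of `Option β` given by the bit at `none` and a subset of `β`. -/
def cons (b : Bool) (J : β → Bool) : Option β → Bool
  | none => b
  | some x => J x

theorem cons_eta (J : Option β → Bool) : cons (J none) (J ∘ some) = J := by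
  funext o
  cases o <;> rfl

theorem lev_cons [Fintype β] (b : Bool) (J : β → Bool) : lev (cons b J) = b.toNat + lev J := by
  unfold lev
  rw [Fintype.sum_option]
  rfl

/-- Lift of labels, the constants getting the bit `b` at `none`. -/
def liftLab (b : Bool) : Lab β → Lab (Option β)
  | Sum.inl g => Sum.inl (Equiv.optionCongr g)
  | Sum.inr c => Sum.inr (cons b c)

theorem act_liftLab_inl (b b' : Bool) (g : Perm β) (J : β → Bool) :
    act (liftLab b (Sum.inl g)) (cons b' J) = cons b' (J ∘ g) := by
  funext o
  cases o <;> rfl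

theorem act_liftLab_inr (b b' : Bool) (c : β → Bool) (J : β → Bool) :
    act (liftLab b (Sum.inr c)) (cons b' J) = cons b c := rfl

theorem act_liftLab_same (b : Bool) (x : Lab β) (J : β → Bool) :
    act (liftLab b x) (cons b J) = cons b (act x J) := by
  rcases x with g | c
  · exact act_liftLab_inl b b g J
  · rfl

/-- Lift of a pattern. -/
def Pat.lift (D : Pat β) (b : Bool) : Pat (Option β) where
  P := D.P
  fP := D.fP
  T := D.T
  hT := D.hT
  u := fun p => liftLab b (D.u p)
  nt := by
    obtain ⟨p, g, hp⟩ := D.nt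
    exact ⟨p, Equiv.optionCongr g, by rw [hp]; rfl⟩

theorem Pat.lift_eqv {D : Pat β} {b : Bool} {J J' : β → Bool} (h : D.Eqv J J') :
    (D.lift b).Eqv (cons b J) (cons b J') := by
  obtain ⟨t, ht, h⟩ := h
  refine ⟨t, ht, fun p => ?_⟩
  change act (liftLab b (D.u (t p))) (cons b J) = act (liftLab b (D.u p)) (cons b J')
  rw [act_liftLab_same, act_liftLab_same]
  exact congrArg (cons b) (h p)

/-- The pattern `Σ`: the type of a row depends only on the bit at `none` and the level. -/
def Pat.sig (D : Pat β) : Pat (Option β) := (D.lift true).comp (D.lift false)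

theorem Pat.sig_eqv [Fintype β] {D : Pat β} (hD : ∀ l, D.Unif l) {J J' : Option β → Bool}
    (h0 : J none = J' none) (hl : lev J = lev J') : D.sig.Eqv J J' := by
  obtain ⟨b, K, rfl⟩ : ∃ b K, J = cons b K := ⟨_, _, (cons_eta J).symm⟩
  obtain ⟨b', K', rfl⟩ : ∃ b K, J' = cons b K := ⟨_, _, (cons_eta J').symm⟩
  have h0' : b = b' := h0
  subst h0'
  rw [lev_cons, lev_cons] at hl
  have hl' : lev K = lev K' := by omega
  cases b with
  | false =>
    refine comp_eqv ⟨1, Subgroup.one_mem _, fun p' => ?_⟩
    rw [Perm.one_apply]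
    change (D.lift false).Eqv (act (liftLab true (D.u p')) (cons false K))
      (act (liftLab true (D.u p')) (cons false K'))
    rcases D.u p' with g | c
    · rw [act_liftLab_inl, act_liftLab_inl]
      exact Pat.lift_eqv (hD _ _ _ rfl (by rw [lev_comp, lev_comp, hl']))
    · rw [act_liftLab_inr, act_liftLab_inr]
      exact Pat.Eqv.refl _ _
  | true =>
    obtain ⟨t, ht, h⟩ := hD (lev K) K K' rfl hl'.symm
    refine comp_eqv ⟨t, ht, fun p' => ?_⟩
    change (D.lift false).Eqv (act (liftLab true (D.u (t p'))) (cons true K))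
      (act (liftLab true (D.u p')) (cons true K'))
    rw [act_liftLab_same, act_liftLab_same]
    have hp : cons true (act (D.u (t p')) K) = cons true (act (D.u p') K') :=
      congrArg (cons true) (h p')
    rw [hp]
    exact Pat.Eqv.refl _ _

end option

/-! ### Two-valued columns -/

/-- A column is a label or a constant bit. -/
abbrev Col (α : Type) := α ⊕ Bool

/-- The value of a column. -/
def cval {α : Type} (c : Col α) (J : α → Bool) : Bool :=
  match c with
  | Sum.inl a => J a
  | Sum.inr b => b

/-- The column of the position `y` in the block with label `x`. -/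
def colOf {α : Type} (x : Lab α) (y : α) : Col α :=
  match x with
  | Sum.inl g => Sum.inl (g y)
  | Sum.inr c => Sum.inr (c y)

theorem cval_colOf {α : Type} (x : Lab α) (y : α) (J : α → Bool) :
    cval (colOf x y) J = act x J y := by
  rcases x with g | c <;> rfl

end Pool.Agent.W40_MP_955314_co
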