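import Mathlib
import Pool.Agent.W40_MP_955314_co.Core

/-!
The induction: soluble patterns unifying all levels exist for every finite set.
-/

set_option autoImplicit false

namespace Pool.Agent.W40_MP_955314_co

open Equiv

theorem lev_decide {α : Type} [Fintype α] [DecidableEq α] (s : Finset α) :
    lev (fun a => decide (a ∈ s)) = s.card := by
  unfold lev
  have : ∀ a : α, (decide (a ∈ s)).toNat = if a ∈ s then 1 else 0 := by
    intro a
    by_cases h : a ∈ s <;> simp [h]
  simp only [this]
  simp

theorem exists_lev {α : Type} [Fintype α] {m : ℕ} (hm : m ≤ Fintype.card α) :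
    ∃ J : α → Bool, lev J = m := by
  classical
  obtain ⟨s, -, hs⟩ := Finset.exists_subset_card_eq (s := (Finset.univ : Finset α))
    (by rwa [Finset.card_univ] : m ≤ (Finset.univ : Finset α).card)
  exact ⟨fun a => decide (a ∈ s), by rw [lev_decide, hs]⟩

theorem exists_lev_update {α : Type} [Fintype α] [DecidableEq α] {m : ℕ}
    (hm : m < Fintype.card α) :
    ∃ (K : Bool → α → Bool) (j : α) (J0 : α → Bool), (∀ b a, K b a = if a = j then b else J0 a) ∧
      ∀ b, lev (K b) = m + b.toNat := by
  obtain ⟨s, -, hs⟩ := Finset.exists_subset_card_eq (s := (Finset.univ : Finset α))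
    (by rw [Finset.card_univ]; omega : m + 1 ≤ (Finset.univ : Finset α).card)
  have hne : s.Nonempty := by
    rw [← Finset.card_pos]; omega
  obtain ⟨j, hj⟩ := hne
  refine ⟨fun b a => if a = j then b else decide (a ∈ s), j, fun a => decide (a ∈ s),
    fun _ _ => rfl, fun b => ?_⟩
  cases b with
  | false =>
    have : (fun a => if a = j then false else decide (a ∈ s)) =
        fun a => decide (a ∈ s.erase j) := by
      funext a
      by_cases h : a = j
      · subst h; simp
      · simp [h]
    change lev (fun a => if a = j then false else decide (a ∈ s)) = _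
    rw [this, lev_decide, Finset.card_erase_of_mem hj, hs]
    simp
  | true =>
    have : (fun a => if a = j then true else decide (a ∈ s)) =
        fun a => decide (a ∈ s) := by
      funext a
      by_cases h : a = j
      · subst h; simp [hj]
      · simp [h]
    change lev (fun a => if a = j then true else decide (a ∈ s)) = _
    rw [this, lev_decide, hs]
    simp

/-- Only one subset has level zero. -/
theorem eq_of_lev_zero {α : Type} [Fintype α] {J J' : α → Bool} (h : lev J = 0)
    (h' : lev J' = 0) : J = J' := by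
  have key : ∀ J : α → Bool, lev J = 0 → ∀ a, J a = false := by
    intro J hJ a
    have := (Finset.sum_eq_zero_iff.1 hJ) a (Finset.mem_univ a)
    cases hJa : J a
    · rfl
    · rw [hJa] at this; simp at this
  funext a
  rw [key J h a, key J' h' a]

/-- Only one subset has full level. -/
theorem eq_of_lev_card {α : Type} [Fintype α] {J J' : α → Bool} (h : lev J = Fintype.card α)
    (h' : lev J' = Fintype.card α) : J = J' := by
  have key : ∀ J : α → Bool, lev J = Fintype.card α → ∀ a, J a = true := by
    intro J hJ a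
    have h1 : ∑ a, (J a).toNat = ∑ _a : α, 1 := by
      rw [show ∑ a, (J a).toNat = lev J from rfl, hJ]; simp
    have := (Finset.sum_eq_sum_iff_of_le (fun a _ => Bool.toNat_le (J a))).1 h1 a
      (Finset.mem_univ a)
    cases hJa : J a
    · rw [hJa] at this; simp at this
    · rfl
  funext a
  rw [key J h a, key J' h' a]

section step

variable {β : Type} [Fintype β] [DecidableEq β]

/-- Labels of the outer pattern attached to a column. -/
def toLab (Jb : Bool → Option β → Bool) (c : Col (Option β)) : Lab (Option β) :=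
  match c with
  | Sum.inl a => Sum.inl (Equiv.swap none a)
  | Sum.inr b => Sum.inr (Jb b)

omit [Fintype β] in
theorem act_toLab_none {Jb : Bool → Option β → Bool} (hJb : ∀ b, Jb b none = b)
    (c : Col (Option β)) (J : Option β → Bool) : act (toLab Jb c) J none = cval c J := by
  rcases c with a | b
  · change J (Equiv.swap none a none) = J a
    rw [Equiv.swap_apply_left]
  · exact hJb b

theorem lev_toLab {Jb : Bool → Option β → Bool} {k : ℕ} (hJb : ∀ b, lev (Jb b) = k)
    (c : Col (Option β)) {J : Option β → Bool} (hJ : lev J = k) :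
    lev (act (toLab Jb c) J) = k := by
  rcases c with a | b
  · change lev (J ∘ (Equiv.swap none a)) = k
    rw [lev_comp, hJ]
  · exact hJb b

/-- Columns of the two blocks. -/
def colBlock (j : β) (J0 : β → Bool) (b : Bool) (x : Lab β) (y : β) : Col (Option β) :=
  match x with
  | Sum.inl g =>
    if b then Sum.inl (some (g y)) else if g y = j then Sum.inl none else Sum.inr (J0 (g y))
  | Sum.inr c => Sum.inr (c y)

/-- The row of the block `b`. -/
def blockRow (K : Bool → β → Bool) (J : Option β → Bool) (b : Bool) : β → Bool :=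
  if b then J ∘ some else K (J none)

omit [Fintype β] in
theorem cval_colBlock {K : Bool → β → Bool} {j : β} {J0 : β → Bool}
    (hK : ∀ b a, K b a = if a = j then b else J0 a) (b : Bool) (x : Lab β) (y : β)
    (J : Option β → Bool) :
    cval (colBlock j J0 b x y) J = act x (blockRow K J b) y := by
  rcases x with g | c
  · cases b with
    | true => rfl
    | false =>
      change cval (if g y = j then Sum.inl none else Sum.inr (J0 (g y))) J = K (J none) (g y)
      rw [hK]
      by_cases h : g y = j
      · rw [if_pos h, if_pos h]; rfl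
      · rw [if_neg h, if_neg h]; rfl
  · rfl

/-- The outer pattern. -/
def outer (D : Pat β) (j : β) (J0 : β → Bool) (Jb : Bool → Option β → Bool) :
    Pat (Option β) where
  P := Bool × (D.P × β)
  fP := by
    have := D.fP
    infer_instance
  T := wreathP (wreathP (⊥ : Subgroup (Perm β)) D.T) (⊤ : Subgroup (Perm Bool))
  hT := by
    refine isSolvable_wreathP _ _ (isSolvable_wreathP _ _ inferInstance D.hT) ?_
    apply Group.isSolvable_of_comm
    have : ∀ a b : Perm Bool, a * b = b * a := by decide
    intro a b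
    exact Subtype.ext (this a b)
  u := fun q => toLab Jb (colBlock j J0 q.1 (D.u q.2.1) q.2.2)
  nt := by
    obtain ⟨p, g, hp⟩ := D.nt
    refine ⟨(true, (p, j)), Equiv.swap none (some (g j)), ?_⟩
    simp only [hp]
    rfl

theorem outer_row {D : Pat β} (hD : ∀ l, D.Unif l) {K : Bool → β → Bool} {j : β}
    {J0 : β → Bool} (hK : ∀ b a, K b a = if a = j then b else J0 a) {m : ℕ}
    (hlK : ∀ b, lev (K b) = m + b.toNat) {J J' : Option β → Bool} (hJ : lev J = m + 1) (hJ' : lev J' = m + 1) :
    ∃ σ : Perm (Bool × (D.P × β)), σ ∈ wreathP (wreathP (⊥ : Subgroup (Perm β)) D.T)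
      (⊤ : Subgroup (Perm Bool)) ∧ ∀ q : Bool × (D.P × β),
      cval (colBlock j J0 (σ q).1 (D.u (σ q).2.1) (σ q).2.2) J =
        cval (colBlock j J0 q.1 (D.u q.2.1) q.2.2) J' := by
  -- levels of the blocks
  have hlev : ∀ J : Option β → Bool, lev J = m + 1 → ∀ b,
      lev (blockRow K J b) = m + (xor b (J none)).toNat := by
    intro J hJ b
    rw [← cons_eta J, lev_cons] at hJ
    cases b with
    | true =>
      change lev (J ∘ some) = _
      cases h : J none <;> rw [h] at hJ <;> simp at hJ ⊢ <;> omega
    | false =>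
      change lev (K (J none)) = _
      rw [hlK]
      simp
  obtain ⟨π, hπ⟩ : ∃ π : Perm Bool, ∀ b, xor (π b) (J none) = xor b (J' none) := by
    cases J none <;> cases J' none <;> decide
  have hb : ∀ b, D.Eqv (blockRow K J (π b)) (blockRow K J' b) := by
    intro b
    refine hD (m + (xor b (J' none)).toNat) _ _ ?_ ?_
    · rw [hlev J hJ, hπ]
    · rw [hlev J' hJ']
  choose t ht htp using hb
  have h2 : ∀ b, ∃ s ∈ wreathP (⊥ : Subgroup (Perm β)) D.T, ∀ p y, s (p, y) = (t b p, y) := by
    intro b
    obtain ⟨s, hs, hsp⟩ := exists_wreathP (ht b) (s := fun _ => (1 : Perm β))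
      (fun _ => Subgroup.one_mem _)
    exact ⟨s, hs, hsp⟩
  choose s hs hsp using h2
  obtain ⟨σ, hσ, hσp⟩ := exists_wreathP (Subgroup.mem_top π) hs
  refine ⟨σ, hσ, ?_⟩
  rintro ⟨b, p, y⟩
  rw [hσp, hsp]
  simp only
  rw [cval_colBlock hK, cval_colBlock hK, htp]

theorem step (D : Pat β) (hD : ∀ l, D.Unif l) (k : ℕ) : ∃ E : Pat (Option β), E.Unif k := by
  rcases Nat.eq_zero_or_pos k with rfl | hk
  · refine ⟨Pat.triv _, fun J J' hJ hJ' => ?_⟩
    rw [eq_of_lev_zero hJ hJ']
    exact Pat.Eqv.refl _ _
  obtain ⟨m, rfl⟩ : ∃ m, k = m + 1 := ⟨k - 1, by omega⟩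
  by_cases hm : m < Fintype.card β
  · obtain ⟨K, j, J0, hK, hlK⟩ := exists_lev_update hm
    have h1 : ∀ b : Bool, ∃ J : β → Bool, lev J = m + 1 - b.toNat := by
      intro b
      apply exists_lev
      have := Bool.toNat_le b
      omega
    choose Jx hJx using h1
    set Jb : Bool → Option β → Bool := fun b => cons b (Jx b) with hJbdef
    have hJb0 : ∀ b, Jb b none = b := fun b => rfl
    have hJbl : ∀ b, lev (Jb b) = m + 1 := by
      intro b
      rw [hJbdef]
      simp only
      rw [lev_cons, hJx]
      have := Bool.toNat_le b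
      omega
    refine ⟨(outer D j J0 Jb).comp D.sig, fun J J' hJ hJ' => ?_⟩
    obtain ⟨σ, hσ, h⟩ := outer_row hD hK hlK hJ hJ'
    refine Pat.comp_eqv ⟨σ, hσ, fun q => ?_⟩
    refine Pat.sig_eqv hD ?_ ?_
    · change act (toLab Jb _) J none = act (toLab Jb _) J' none
      rw [act_toLab_none hJb0, act_toLab_none hJb0]
      exact h q
    · change lev (act (toLab Jb _) J) = lev (act (toLab Jb _) J')
      rw [lev_toLab hJbl _ hJ, lev_toLab hJbl _ hJ']
  · refine ⟨Pat.triv _, fun J J' hJ hJ' => ?_⟩
    have hc : m + 1 = Fintype.card (Option β) := by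
      have := lev_le J
      rw [hJ] at this
      rw [Fintype.card_option] at this ⊢
      omega
    rw [hc] at hJ hJ'
    rw [eq_of_lev_card hJ hJ']
    exact Pat.Eqv.refl _ _

end step

/-- Transport of patterns along an equivalence. -/
theorem transport {α β : Type} [Fintype α] [Fintype β] (e : α ≃ β)
    (h : ∃ D : Pat α, ∀ l, D.Unif l) : ∃ D : Pat β, ∀ l, D.Unif l := by
  obtain ⟨D, hD⟩ := h
  let lab : Lab α → Lab β := fun x => match x with
    | Sum.inl g => Sum.inl ((e.symm.trans g).trans e)
    | Sum.inr c => Sum.inr (c ∘ e.symm)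
  have hlab : ∀ x J, act (lab x) J = act x (J ∘ e) ∘ e.symm := by
    intro x J
    rcases x with g | c <;> rfl
  have hlev : ∀ J : β → Bool, lev (J ∘ e) = lev J := fun J =>
    Equiv.sum_comp e (fun a => (J a).toNat)
  refine ⟨⟨D.P, D.fP, D.T, D.hT, fun p => lab (D.u p), ?_⟩, fun l J J' hJ hJ' => ?_⟩
  · obtain ⟨p, g, hp⟩ := D.nt
    exact ⟨p, _, by rw [hp]⟩
  · obtain ⟨t, ht, h⟩ := hD l (J ∘ e) (J' ∘ e) (by rw [hlev, hJ]) (by rw [hlev, hJ'])
    refine ⟨t, ht, fun p => ?_⟩
    change act (lab (D.u (t p))) J = act (lab (D.u p)) J'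
    rw [hlab, hlab, h]

/-- **Main combinatorial theorem.** -/
theorem exists_pat (n : ℕ) : ∃ D : Pat (Fin n), ∀ l, D.Unif l := by
  induction n with
  | zero =>
    refine ⟨Pat.triv _, fun l J J' _ _ => ?_⟩
    rw [Subsingleton.elim J J']
    exact Pat.Eqv.refl _ _
  | succ n ih =>
    obtain ⟨D, hD⟩ := ih
    exact transport (finSuccEquiv n).symm (Pat.exists_all (step D hD))

/-- Two-valued version: all `k`-subsets of a finite nonempty set become equivalent. -/
theorem exists_columns (α : Type) [Fintype α] [Nonempty α] :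
    ∃ (Z : Type) (_ : Fintype Z) (Q : Subgroup (Perm Z)) (_ : Group.IsSolvable Q)
      (c : Z → Col α), (∃ z a, c z = Sum.inl a) ∧
      ∀ J J' : α → Bool, lev J = lev J' → ∃ σ ∈ Q, ∀ z, cval (c (σ z)) J = cval (c z) J' := by
  obtain ⟨D, hD⟩ := transport (Fintype.equivFin α).symm (exists_pat (Fintype.card α))
  have := D.fP
  refine ⟨D.P × α, inferInstance, wreathP (⊥ : Subgroup (Perm α)) D.T,
    isSolvable_wreathP _ _ inferInstance D.hT, fun q => colOf (D.u q.1) q.2, ?_, ?_⟩
  · obtain ⟨p, g, hp⟩ := D.nt
    obtain ⟨a⟩ := (inferInstance : Nonempty α)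
    exact ⟨(p, a), g a, by simp only [hp]; rfl⟩
  · intro J J' hJJ'
    obtain ⟨t, ht, h⟩ := hD (lev J) J J' rfl hJJ'.symm
    obtain ⟨σ, hσ, hσp⟩ := exists_wreathP ht (s := fun _ => (1 : Perm α))
      (fun _ => Subgroup.one_mem _)
    refine ⟨σ, hσ, ?_⟩
    rintro ⟨p, a⟩
    rw [hσp, cval_colOf, cval_colOf, h]
    rfl

end Pool.Agent.W40_MP_955314_co
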