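import Mathlib
import Pool.Agent.W_MP_955314_co.Pattern
import Pool.Agent.W40_MP_955314_co.Induct

/-!
A transitive set with a soluble group of symmetries having (at most) two orbits is contained in a
soluble set.
-/

set_option autoImplicit false

namespace Pool.Agent.W40_MP_955314_co

open Equiv Pool.Agent.W_MP_955314_co

theorem main {n : ℕ} (X : Set (EuclideanSpace ℝ (Fin n))) (hX : X.Finite)
    (htr : ∀ x ∈ X, ∀ y ∈ X, ∃ g : EuclideanSpace ℝ (Fin n) ≃ᵢ EuclideanSpace ℝ (Fin n),
      ⇑g '' X = X ∧ g x = y)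
    (G : Subgroup (EuclideanSpace ℝ (Fin n) ≃ᵢ EuclideanSpace ℝ (Fin n)))
    (hG : Group.IsSolvable G) (hGX : ∀ g ∈ G, ⇑g '' X = X)
    (a b : EuclideanSpace ℝ (Fin n)) (ha : a ∈ X) (hb : b ∈ X)
    (hab : ∀ x ∈ X, ∃ g ∈ G, g a = x ∨ g b = x) : InSolubleSet X := by
  classical
  have : Fintype X := hX.fintype
  -- the two orbits
  set O : Bool → Set (EuclideanSpace ℝ (Fin n)) :=
    fun i => {x | ∃ g ∈ G, g (if i then a else b) = x} with hO
  have hOX : ∀ i, O i ⊆ X := by
    rintro i x ⟨g, hg, rfl⟩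
    rw [← hGX g hg]
    refine ⟨_, ?_, rfl⟩
    split_ifs
    exacts [ha, hb]
  have hcov : ∀ x ∈ X, x ∉ O true → x ∈ O false := by
    intro x hx hx'
    obtain ⟨g, hg, h | h⟩ := hab x hx
    · exact absurd ⟨g, hg, by simpa using h⟩ hx'
    · exact ⟨g, hg, by simpa using h⟩
  -- the group of symmetries as permutations of `X`
  let S : Type := {π : Perm X // ∃ g : EuclideanSpace ℝ (Fin n) ≃ᵢ EuclideanSpace ℝ (Fin n),
    ∀ x : X, g x = (π x : EuclideanSpace ℝ (Fin n))}
  have hSne : Nonempty S := ⟨⟨1, 1, fun x => rfl⟩⟩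
  have hSfin : Fintype S := by infer_instance
  choose! gi hgi using fun π : S => π.2
  -- from isometries to permutations
  have hperm : ∀ g : EuclideanSpace ℝ (Fin n) ≃ᵢ EuclideanSpace ℝ (Fin n), ⇑g '' X = X →
      ∃ π : Perm X, ∀ x : X, g x = (π x : EuclideanSpace ℝ (Fin n)) := by
    intro g hg
    have hm : ∀ x ∈ X, g x ∈ X := fun x hx => hg ▸ Set.mem_image_of_mem _ hx
    have hinj : Function.Injective (fun x : X => (⟨g x, hm x x.2⟩ : X)) := by
      intro x y hxy
      have := congrArg Subtype.val hxy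
      exact Subtype.ext (g.injective this)
    refine ⟨Equiv.ofBijective _ (Finite.injective_iff_bijective.1 hinj), fun x => rfl⟩
  -- subsets of labels
  set Js : X → S → Bool := fun x π => decide ((π.1 x : EuclideanSpace ℝ (Fin n)) ∈ O true)
    with hJs
  have hlev : ∀ x y : X, lev (Js x) = lev (Js y) := by
    intro x y
    obtain ⟨g, hg, hgy⟩ := htr y y.2 x x.2
    obtain ⟨ρ, hρ⟩ := hperm g hg
    have hρy : ρ y = x := Subtype.ext (by rw [← hρ, hgy])
    -- right multiplication by `ρ`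
    let r : S → S := fun π => ⟨π.1 * ρ, by
      obtain ⟨h, hh⟩ := π.2
      exact ⟨h * g, fun z => by
        rw [IsometryEquiv.mul_apply, hρ z, hh]; rfl⟩⟩
    have hrinj : Function.Injective r := by
      intro π π' h
      have := congrArg Subtype.val h
      exact Subtype.ext (mul_right_cancel this)
    let e : Perm S := Equiv.ofBijective r (Finite.injective_iff_bijective.1 hrinj)
    have : Js y ∘ e = Js x := by
      funext π
      change decide (((π.1 * ρ) y : EuclideanSpace ℝ (Fin n)) ∈ O true) = _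
      rw [Perm.mul_apply, hρy]
    rw [← this, lev_comp]
  obtain ⟨Z, hZ, Q, hQ, c, ⟨z0, s0, hz0⟩, hc⟩ := exists_columns S
  -- the coordinates
  let f : Z → EuclideanSpace ℝ (Fin n) → EuclideanSpace ℝ (Fin n) := fun z x =>
    match c z with
    | Sum.inl π => gi π x
    | Sum.inr i => if i then a else b
  have hfmem : ∀ (z : Z) (x : X), f z x ∈ O (cval (c z) (Js x)) := by
    intro z x
    change (match c z with
      | Sum.inl π => gi π x
      | Sum.inr i => if i then a else b) ∈ O (cval (c z) (Js x))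
    rcases c z with π | i
    · change gi π x ∈ O (decide ((π.1 x : EuclideanSpace ℝ (Fin n)) ∈ O true))
      rw [hgi]
      by_cases h : (π.1 x : EuclideanSpace ℝ (Fin n)) ∈ O true
      · rw [decide_eq_true h]; exact h
      · rw [decide_eq_false h]; exact hcov _ (π.1 x).2 h
    · exact ⟨1, G.one_mem, rfl⟩
  set L : Finset Z := Finset.univ.filter (fun z => ∃ π, c z = Sum.inl π) with hL
  have hLpos : 0 < L.card := by
    rw [Finset.card_pos]
    exact ⟨z0, by rw [hL]; simp only [Finset.mem_filter, Finset.mem_univ, true_and]; exact ⟨s0, hz0⟩⟩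
  have hr : (0 : ℝ) < Real.sqrt L.card := Real.sqrt_pos.2 (by exact_mod_cast hLpos)
  refine pattern G hG Q hQ O (fun i => hX.subset (hOX i)) ?_ ?_
    (fun z => cval (c z) (Js ⟨a, ha⟩)) f (Real.sqrt L.card) hr ?_ ?_
  · rintro i h hh x ⟨g, hg, rfl⟩
    exact ⟨h * g, G.mul_mem hh hg, rfl⟩
  · rintro i x ⟨g, hg, rfl⟩ y ⟨g', hg', rfl⟩
    exact ⟨g' * g⁻¹, G.mul_mem hg' (G.inv_mem hg), by
      rw [IsometryEquiv.mul_apply, IsometryEquiv.inv_apply_self]⟩
  · intro x y
    have : ∀ z, dist (f z x) (f z y) ^ 2 = if (∃ π, c z = Sum.inl π) then dist x y ^ 2 else 0 := by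
      intro z
      change dist (match c z with
        | Sum.inl π => gi π x
        | Sum.inr i => if i then a else b) (match c z with
        | Sum.inl π => gi π y
        | Sum.inr i => if i then a else b) ^ 2 = _
      rcases c z with π | i
      · rw [if_pos ⟨π, rfl⟩]
        change dist (gi π x) (gi π y) ^ 2 = _
        rw [(gi π).dist_eq]
      · simp
    simp only [this]
    rw [← Finset.sum_filter, Finset.sum_const, nsmul_eq_mul, ← hL,
      Real.sq_sqrt (Nat.cast_nonneg _)]
  · intro x hx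
    obtain ⟨σ, hσ, h⟩ := hc (Js ⟨x, hx⟩) (Js ⟨a, ha⟩) (hlev _ _)
    refine ⟨σ, hσ, fun j => ?_⟩
    have h1 := hfmem j ⟨x, hx⟩
    have h2 := h (σ⁻¹ j)
    rw [show σ (σ⁻¹ j) = j from σ.apply_symm_apply j] at h2
    change f j x ∈ O (cval (c (σ⁻¹ j)) (Js ⟨a, ha⟩))
    rw [← h2]
    exact h1

end Pool.Agent.W40_MP_955314_co
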